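import Pool.Agent.Helper89.Stx.Defs

/-!
# MP_65a63f_X, row X6: Weyl sums (`geom`, `weylN`, `weylJ`)
-/

set_option autoImplicit false

namespace Stx

open Finset Stz

/-! ### characters -/

theorem w6_ps_add (A : ℕ) [NeZero A] (x y : ZMod A) : ps A (x + y) = ps A x * ps A y :=
  AddChar.map_add_eq_mul _ _ _

theorem w6_ps_zero (A : ℕ) [NeZero A] : ps A (0 : ZMod A) = 1 := AddChar.map_zero_eq_one _

theorem w6_norm_ps (A : ℕ) [NeZero A] (x : ZMod A) : ‖ps A x‖ = 1 := AddChar.norm_apply _ _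

theorem w6_ps_conj (A : ℕ) [NeZero A] (x : ZMod A) : (starRingEnd ℂ) (ps A x) = ps A (-x) :=
  (AddChar.map_neg_eq_conj _ x).symm

theorem w6_ps_nat (A : ℕ) [NeZero A] (j : ℕ) (y : ZMod A) :
    ps A ((j : ZMod A) * y) = ps A y ^ j := by
  induction j with
  | zero =>
      rw [Nat.cast_zero, zero_mul, w6_ps_zero, pow_zero]
  | succ j ih =>
      rw [pow_succ, ← ih, ← w6_ps_add]
      congr 1
      push_cast
      ring

theorem w6_nrm_nonneg (A : ℕ) (y : ZMod A) : 0 ≤ nrm A y :=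
  div_nonneg (abs_nonneg _) (Nat.cast_nonneg _)

theorem w6_nrm_half (A : ℕ) [NeZero A] (y : ZMod A) : nrm A y ≤ 1 / 2 := by
  have hA0 : (0 : ℝ) < A := Nat.cast_pos.mpr (Nat.pos_of_ne_zero (NeZero.ne A))
  unfold nrm
  rw [div_le_div_iff₀ hA0 (by norm_num)]
  have h := y.valMinAbs_mem_Ioc
  have h1 : |y.valMinAbs| * 2 ≤ (A : ℤ) := by
    rcases abs_cases y.valMinAbs with ⟨h2, _⟩ | ⟨h2, _⟩
    · rw [h2]
      exact h.2
    · rw [h2]
      linarith [h.1]
  have h3 : |(y.valMinAbs : ℝ)| * 2 ≤ (A : ℝ) := by exact_mod_cast h1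
  linarith

theorem w6_sub_one (A : ℕ) [NeZero A] (y : ZMod A) : 4 * nrm A y ≤ ‖ps A y - 1‖ := by
  have hA0 : (0 : ℝ) < A := Nat.cast_pos.mpr (Nat.pos_of_ne_zero (NeZero.ne A))
  have h1 : ps A y = Complex.exp (Complex.I * ((2 * Real.pi * ((y.valMinAbs : ℝ) / A) : ℝ) : ℂ)) := by
    conv_lhs => rw [← ZMod.coe_valMinAbs y]
    unfold ps
    rw [ZMod.stdAddChar_coe]
    congr 1
    push_cast
    ring
  have hhalf := w6_nrm_half A y
  have h2 : nrm A y = |(y.valMinAbs : ℝ) / A| := by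
    unfold nrm
    rw [abs_div, abs_of_pos hA0]
  rw [h1]
  rw [h2] at hhalf ⊢
  generalize (y.valMinAbs : ℝ) / A = t at hhalf ⊢
  rw [Complex.norm_exp_I_mul_ofReal_sub_one, Real.norm_eq_abs, abs_mul,
    abs_of_pos (by norm_num : (0 : ℝ) < 2)]
  have h3 : 2 * Real.pi * t / 2 = Real.pi * t := by ring
  rw [h3]
  have h4 : |Real.pi * t| ≤ Real.pi / 2 := by
    rw [abs_mul, abs_of_pos Real.pi_pos]
    have := Real.pi_pos
    nlinarith
  have h5 := Real.mul_abs_le_abs_sin h4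
  have h6 : 2 / Real.pi * |Real.pi * t| = 2 * |t| := by
    rw [abs_mul, abs_of_pos Real.pi_pos]
    have := Real.pi_pos.ne'
    field_simp
  linarith

theorem w6_geom0 (A : ℕ) [NeZero A] (y : ZMod A) (L : ℕ) :
    2 * nrm A y * ‖∑ j ∈ range L, ps A ((j : ZMod A) * y)‖ ≤ 1 := by
  simp_rw [w6_ps_nat]
  have h1 := geom_sum_mul (ps A y) L
  have h2 : ‖∑ i ∈ range L, ps A y ^ i‖ * ‖ps A y - 1‖ ≤ 2 := by
    rw [← norm_mul, h1]
    refine (norm_sub_le _ _).trans ?_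
    rw [norm_pow, w6_norm_ps, one_pow, norm_one]
    norm_num
  have h3 := w6_sub_one A y
  have h4 : ‖∑ i ∈ range L, ps A y ^ i‖ * (4 * nrm A y) ≤
      ‖∑ i ∈ range L, ps A y ^ i‖ * ‖ps A y - 1‖ := by gcongr
  linarith

/-! ### the majorant -/

theorem w6_mn_nonneg (A : ℕ) (L : ℝ) (hL : 0 < L) (u : ZMod A) : 0 ≤ mn A L u := by
  unfold mn
  apply inv_nonneg.2
  exact le_trans (by positivity) (le_max_left _ _)

theorem geom (A J L : ℕ) [NeZero A] (hJ : J ≤ L) (hL : 1 ≤ L) (u v : ZMod A) :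
    ‖∑ j ∈ range J, ps A ((j : ZMod A) * u + v)‖ ≤ mn A L u := by
  have h1 : ∑ j ∈ range J, ps A ((j : ZMod A) * u + v) =
      (∑ j ∈ range J, ps A ((j : ZMod A) * u)) * ps A v := by
    rw [Finset.sum_mul]
    exact Finset.sum_congr rfl fun j _ => w6_ps_add A _ _
  rw [h1, norm_mul, w6_norm_ps, mul_one]
  have hL0 : (0 : ℝ) < L := by exact_mod_cast hL
  have hpos : 0 < max (1 / (L : ℝ)) (2 * nrm A u) :=
    lt_of_lt_of_le (by positivity) (le_max_left _ _)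
  unfold mn
  rw [← one_div, le_div_iff₀ hpos]
  have hn : ‖∑ j ∈ range J, ps A ((j : ZMod A) * u)‖ ≤ (J : ℝ) := by
    refine (norm_sum_le _ _).trans ?_
    rw [Finset.sum_congr rfl fun j _ => w6_norm_ps A _]
    simp
  have hJL : (J : ℝ) ≤ L := by exact_mod_cast hJ
  rcases le_total (1 / (L : ℝ)) (2 * nrm A u) with h | h
  · rw [max_eq_right h, mul_comm]
    exact w6_geom0 A u J
  · rw [max_eq_left h, mul_one_div, div_le_one hL0]
    linarith

/-- geometric sums over integer intervals -/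
theorem w6_geomI (A L : ℕ) [NeZero A] (hL : 1 ≤ L) (a b : ℤ) (hab : b - a ≤ L) (w t : ZMod A) :
    ‖∑ j ∈ Ico a b, ps A ((j : ZMod A) * w + t)‖ ≤ mn A L w := by
  have h1 : ∑ j ∈ Ico a b, ps A ((j : ZMod A) * w + t) =
      ∑ i ∈ range (b - a).toNat, ps A ((i : ZMod A) * w + ((a : ZMod A) * w + t)) := by
    symm
    apply Finset.sum_nbij' (fun i : ℕ => a + i) (fun j : ℤ => (j - a).toNat)
    · intro i hi
      rw [mem_range] at hi
      rw [mem_Ico]
      omega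
    · intro j hj
      rw [mem_Ico] at hj
      rw [mem_range]
      omega
    · intro i _
      omega
    · intro j hj
      rw [mem_Ico] at hj
      omega
    · intro i _
      congr 1
      push_cast
      ring
  rw [h1]
  exact geom A _ L (by omega) hL _ _

theorem w6_range (J : ℕ) (f : ℤ → ℂ) : ∑ i ∈ range J, f (i : ℤ) = ∑ i ∈ Ico (0 : ℤ) J, f i := by
  apply Finset.sum_nbij' (fun i : ℕ => (i : ℤ)) (fun j : ℤ => j.toNat)
  · intro i hi
    rw [mem_range] at hi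
    rw [mem_Ico]
    omega
  · intro j hj
    rw [mem_Ico] at hj
    rw [mem_range]
    omega
  · intro i _
    omega
  · intro j hj
    rw [mem_Ico] at hj
    omega
  · intro i _
    rfl

/-! ### differencing -/

theorem w6_diff {α : Type} [AddCommGroup α] [DecidableEq α] (I Hs : Finset α)
    (hH : ∀ x ∈ I, ∀ y ∈ I, x - y ∈ Hs) (G : α → α → ℂ) :
    ∑ x ∈ I, ∑ y ∈ I, G x y = ∑ h ∈ Hs, ∑ y ∈ I.filter (fun y => y + h ∈ I), G (y + h) y := by
  have h1 : ∑ h ∈ Hs, ∑ y ∈ I.filter (fun y => y + h ∈ I), G (y + h) y =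
      ∑ y ∈ I, ∑ h ∈ Hs, if y + h ∈ I then G (y + h) y else 0 := by
    rw [Finset.sum_comm]
    exact Finset.sum_congr rfl fun h _ => Finset.sum_filter _ _
  rw [h1, Finset.sum_comm]
  apply Finset.sum_congr rfl
  intro y hy
  rw [← Finset.sum_filter]
  apply Finset.sum_nbij' (fun x => x - y) (fun h => y + h)
  · intro x hx
    rw [mem_filter]
    refine ⟨hH x hx y hy, ?_⟩
    rw [add_sub_cancel]
    exact hx
  · intro h hh
    exact (mem_filter.1 hh).2
  · intro x _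
    rw [add_sub_cancel]
  · intro h _
    rw [add_sub_cancel_left]
  · intro x _
    rw [add_sub_cancel]

theorem w6_sq {α : Type} (I : Finset α) (A : ℕ) [NeZero A] (g : α → ZMod A) :
    ‖∑ x ∈ I, ps A (g x)‖ ^ 2 = ‖∑ x ∈ I, ∑ y ∈ I, ps A (g x - g y)‖ := by
  have h1 : ∑ x ∈ I, ∑ y ∈ I, ps A (g x - g y) =
      (∑ x ∈ I, ps A (g x)) * (starRingEnd ℂ) (∑ x ∈ I, ps A (g x)) := by
    rw [map_sum, Finset.sum_mul_sum]
    refine Finset.sum_congr rfl fun x _ => Finset.sum_congr rfl fun y _ => ?_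
    rw [w6_ps_conj, ← w6_ps_add, sub_eq_add_neg]
  rw [h1, norm_mul, RCLike.norm_conj, sq]

theorem w6_Ifilter (J : ℕ) (h : ℤ) :
    (Ico (0 : ℤ) J).filter (fun y => y + h ∈ Ico (0 : ℤ) J) =
      Ico (max 0 (-h)) (min (J : ℤ) (J - h)) := by
  ext y
  simp only [mem_filter, mem_Ico, max_le_iff, lt_min_iff]
  omega

/-- quadratic sums over an interval of integers -/
theorem w6_quad (A N : ℕ) [NeZero A] (hN : 1 ≤ N) (c : ℤ) (u : ZMod A) :
    ‖∑ i ∈ Ico (0 : ℤ) N, ps A ((((c + i) ^ 2 : ℤ) : ZMod A) * u)‖ ^ 2 ≤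
      ∑ h ∈ Icc (-(N : ℤ)) N, mn A N (((2 * h : ℤ) : ZMod A) * u) := by
  rw [w6_sq, w6_diff (Ico (0 : ℤ) N) (Icc (-(N : ℤ)) N)]
  · refine (norm_sum_le _ _).trans (Finset.sum_le_sum fun h _ => ?_)
    rw [w6_Ifilter]
    have h1 : ∀ y : ℤ, ((((c + (y + h)) ^ 2 : ℤ) : ZMod A) * u - (((c + y) ^ 2 : ℤ) : ZMod A) * u) =
        (y : ZMod A) * (((2 * h : ℤ) : ZMod A) * u) +
          (((2 * c * h + h ^ 2 : ℤ) : ZMod A) * u) := by
      intro y
      push_cast
      ring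
    simp only [h1]
    apply w6_geomI A N hN
    omega
  · intro x hx y hy
    rw [mem_Ico] at hx hy
    rw [mem_Icc]
    omega

theorem weylN (A b N : ℕ) [NeZero A] (hN : 1 ≤ N) (u : ZMod A) :
    ‖∑ n ∈ Icc (b + 1) (b + N), ps A (((n ^ 2 : ℕ) : ZMod A) * u)‖ ^ 2 ≤ U A (2 * N) N u := by
  have hL0 : (0 : ℝ) < N := by exact_mod_cast hN
  have h1 : ∑ n ∈ Icc (b + 1) (b + N), ps A (((n ^ 2 : ℕ) : ZMod A) * u) =
      ∑ i ∈ Ico (0 : ℤ) N, ps A (((((b : ℤ) + 1 + i) ^ 2 : ℤ) : ZMod A) * u) := by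
    apply Finset.sum_nbij' (fun n : ℕ => (n : ℤ) - (b + 1)) (fun i : ℤ => (i + (b + 1)).toNat)
    · intro n hn
      rw [mem_Icc] at hn
      rw [mem_Ico]
      omega
    · intro i hi
      rw [mem_Ico] at hi
      rw [mem_Icc]
      omega
    · intro n hn
      omega
    · intro i hi
      rw [mem_Ico] at hi
      omega
    · intro n _
      congr 2
      push_cast
      ring
  rw [h1]
  refine (w6_quad A N hN _ u).trans ?_
  unfold U
  have h2 : ∑ h ∈ Icc (-(N : ℤ)) N, mn A N (((2 * h : ℤ) : ZMod A) * u) =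
      ∑ v ∈ (Icc (-(N : ℤ)) N).image (fun h : ℤ => 2 * h), mn A N (((v : ℤ) : ZMod A) * u) := by
    rw [Finset.sum_image]
    intro x _ y _ hxy
    dsimp only at hxy
    omega
  rw [h2]
  apply Finset.sum_le_sum_of_subset_of_nonneg
  · intro v hv
    rw [mem_image] at hv
    obtain ⟨h, hh, rfl⟩ := hv
    rw [mem_Icc] at hh ⊢
    push_cast
    omega
  · intro v _ _
    exact w6_mn_nonneg A N hL0 _

/-! ### two parameters -/

theorem w6_pair (A L J : ℕ) [NeZero A] (hL : 1 ≤ L) (hJL : J ≤ L) (h : ℤ × ℤ)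
    (w w' t : ZMod A) :
    ‖∑ y ∈ ((Ico (0 : ℤ) J) ×ˢ (Ico (0 : ℤ) J)).filter
        (fun y => y + h ∈ (Ico (0 : ℤ) J) ×ˢ (Ico (0 : ℤ) J)),
      ps A ((y.1 : ZMod A) * w + (y.2 : ZMod A) * w' + t)‖ ≤ mn A L w * mn A L w' := by
  have h1 : ((Ico (0 : ℤ) J) ×ˢ (Ico (0 : ℤ) J)).filter
        (fun y => y + h ∈ (Ico (0 : ℤ) J) ×ˢ (Ico (0 : ℤ) J)) =
      (Ico (max 0 (-h.1)) (min (J : ℤ) (J - h.1))) ×ˢ
        (Ico (max 0 (-h.2)) (min (J : ℤ) (J - h.2))) := by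
    ext y
    simp only [mem_filter, mem_product, mem_Ico, max_le_iff, lt_min_iff, Prod.fst_add,
      Prod.snd_add]
    omega
  rw [h1, Finset.sum_product]
  have h2 : ∑ x ∈ Ico (max 0 (-h.1)) (min (J : ℤ) (J - h.1)),
      ∑ y ∈ Ico (max 0 (-h.2)) (min (J : ℤ) (J - h.2)),
        ps A ((x : ZMod A) * w + (y : ZMod A) * w' + t) =
      (∑ x ∈ Ico (max 0 (-h.1)) (min (J : ℤ) (J - h.1)), ps A ((x : ZMod A) * w + t)) *
      (∑ y ∈ Ico (max 0 (-h.2)) (min (J : ℤ) (J - h.2)), ps A ((y : ZMod A) * w' + 0)) := by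
    rw [Finset.sum_mul_sum]
    refine Finset.sum_congr rfl fun x _ => Finset.sum_congr rfl fun y _ => ?_
    rw [← w6_ps_add]
    congr 1
    ring
  dsimp only
  rw [h2, norm_mul]
  have hL0 : (0 : ℝ) < L := by exact_mod_cast hL
  exact mul_le_mul (w6_geomI A L hL _ _ (by omega) _ _) (w6_geomI A L hL _ _ (by omega) _ _)
    (norm_nonneg _) (w6_mn_nonneg A L hL0 _)

/-- `v = 2 G h` -/
def w6_G {r : ℕ} (k k' : Fin r → ℤ) (h : ℤ × ℤ) : ℤ × ℤ :=
  (2 * (h.1 * ∑ l, k l * k l + h.2 * ∑ l, k l * k' l),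
    2 * (h.1 * ∑ l, k l * k' l + h.2 * ∑ l, k' l * k' l))

theorem w6_G_inj {r : ℕ} (k k' : Fin r → ℤ) (hk : Ind k k') (h h' : ℤ × ℤ)
    (e : w6_G k k' h = w6_G k k' h') : h = h' := by
  unfold w6_G at e
  rw [Prod.mk.injEq] at e
  obtain ⟨e1, e2⟩ := e
  set d1 := h.1 - h'.1 with hd1
  set d2 := h.2 - h'.2 with hd2
  have f1 : d1 * ∑ l, k l * k l + d2 * ∑ l, k l * k' l = 0 := by
    rw [hd1, hd2]
    linarith
  have f2 : d1 * ∑ l, k l * k' l + d2 * ∑ l, k' l * k' l = 0 := by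
    rw [hd1, hd2]
    linarith
  have f3 : ∑ l, (d1 * k l + d2 * k' l) ^ 2 = 0 := by
    have : ∑ l, (d1 * k l + d2 * k' l) ^ 2 =
        d1 * (d1 * ∑ l, k l * k l + d2 * ∑ l, k l * k' l) +
          d2 * (d1 * ∑ l, k l * k' l + d2 * ∑ l, k' l * k' l) := by
      simp only [Finset.mul_sum, ← Finset.sum_add_distrib]
      exact Finset.sum_congr rfl fun l _ => by ring
    rw [this, f1, f2]
    ring
  have f4 : ∀ l, d1 * k l + d2 * k' l = 0 := by
    intro l
    have h5 := (Finset.sum_eq_zero_iff_of_nonneg (fun l _ => sq_nonneg (d1 * k l + d2 * k' l))).1 f3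
      l (Finset.mem_univ l)
    exact pow_eq_zero_iff (n := 2) (by norm_num) |>.1 h5
  obtain ⟨l, l', hl⟩ := hk
  have g1 := f4 l
  have g2 := f4 l'
  have g3 : d1 * (k l * k' l' - k l' * k' l) = 0 := by linear_combination k' l' * g1 - k' l * g2
  have g4 : d2 * (k l * k' l' - k l' * k' l) = 0 := by linear_combination k l * g2 - k l' * g1
  have g5 : k l * k' l' - k l' * k' l ≠ 0 := fun h0 => hl (by linarith)
  have z1 : d1 = 0 := (mul_eq_zero.1 g3).resolve_right g5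
  have z2 : d2 = 0 := (mul_eq_zero.1 g4).resolve_right g5
  ext
  · linarith
  · linarith

theorem w6_phase {r : ℕ} (k k' m : Fin r → ℤ) (y h : ℤ × ℤ) :
    sqs (fun l => m l - (y + h).1 * k l - (y + h).2 * k' l) -
      sqs (fun l => m l - y.1 * k l - y.2 * k' l) =
    y.1 * (w6_G k k' h).1 + y.2 * (w6_G k k' h).2 +
      ∑ l, ((h.1 * k l + h.2 * k' l) ^ 2 - 2 * (h.1 * k l + h.2 * k' l) * m l) := by
  unfold sqs w6_G
  simp only [Finset.mul_sum, ← Finset.sum_add_distrib, ← Finset.sum_sub_distrib, Prod.fst_add,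
    Prod.snd_add]
  exact Finset.sum_congr rfl fun l _ => by ring

theorem w6_dot_le {r H : ℕ} (k k' : Fin r → ℤ) (h1 : ∀ l, |k l| ≤ H) (h2 : ∀ l, |k' l| ≤ H) :
    |∑ l, k l * k' l| ≤ r * H ^ 2 := by
  calc |∑ l, k l * k' l| ≤ ∑ l, |k l * k' l| := Finset.abs_sum_le_sum_abs _ _
    _ ≤ ∑ _l : Fin r, (H : ℤ) ^ 2 := by
        apply Finset.sum_le_sum
        intro l _
        rw [abs_mul, sq]
        exact mul_le_mul (h1 l) (h2 l) (abs_nonneg _) (by positivity)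
    _ = r * H ^ 2 := by
        rw [Finset.sum_const, Finset.card_univ, Fintype.card_fin, nsmul_eq_mul]

theorem weylJ (A r H J L V : ℕ) [NeZero A] (k k' m : Fin r → ℤ) (hk : Ind k k')
    (hH : ∀ l, |k l| ≤ H ∧ |k' l| ≤ H) (hJ : 1 ≤ J) (hJL : J ≤ L)
    (hV : 4 * r * H ^ 2 * J ≤ V) (u c c' : ZMod A) :
    ‖∑ i ∈ range J, ∑ j ∈ range J,
      ps A ((sqs (fun l => m l - i * k l - j * k' l) : ZMod A) * u - (i : ZMod A) * c -
        (j : ZMod A) * c')‖ ≤ U A V L u := by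
  have hL : 1 ≤ L := hJ.trans hJL
  have hL0 : (0 : ℝ) < L := by exact_mod_cast hL
  have hU : 0 ≤ U A V L u := Finset.sum_nonneg fun v _ => w6_mn_nonneg A L hL0 _
  set R : Finset (ℤ × ℤ) := (Ico (0 : ℤ) J) ×ˢ (Ico (0 : ℤ) J) with hR
  set g : ℤ × ℤ → ZMod A := fun x =>
    ((sqs (fun l => m l - x.1 * k l - x.2 * k' l) : ℤ) : ZMod A) * u - (x.1 : ZMod A) * c -
        (x.2 : ZMod A) * c' with hg
  have h1 : ∑ i ∈ range J, ∑ j ∈ range J,
      ps A ((sqs (fun l => m l - i * k l - j * k' l) : ZMod A) * u - (i : ZMod A) * c -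
        (j : ZMod A) * c') = ∑ x ∈ R, ps A (g x) := by
    rw [hR, Finset.sum_product]
    have e1 := w6_range J (fun i => ∑ j ∈ Ico (0 : ℤ) J, ps A (g (i, j)))
    rw [← e1]
    apply Finset.sum_congr rfl
    intro i _
    have e2 := w6_range J (fun j => ps A (g ((i : ℤ), j)))
    rw [← e2]
    apply Finset.sum_congr rfl
    intro j _
    simp only [hg]
    congr 1
    push_cast
    ring
  rw [h1]
  apply (pow_le_pow_iff_left₀ (norm_nonneg _) hU two_ne_zero).1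
  set Hs : Finset ℤ := Icc (-(J : ℤ)) J with hHs
  rw [w6_sq, w6_diff R (Hs ×ˢ Hs)]
  · have h2 : ∀ h : ℤ × ℤ, ‖∑ y ∈ R.filter (fun y => y + h ∈ R), ps A (g (y + h) - g y)‖ ≤
        mn A L (((w6_G k k' h).1 : ZMod A) * u) * mn A L (((w6_G k k' h).2 : ZMod A) * u) := by
      intro h
      have e1 : ∀ y : ℤ × ℤ, g (y + h) - g y =
          (y.1 : ZMod A) * (((w6_G k k' h).1 : ZMod A) * u) +
            (y.2 : ZMod A) * (((w6_G k k' h).2 : ZMod A) * u) +
            (((∑ l, ((h.1 * k l + h.2 * k' l) ^ 2 - 2 * (h.1 * k l + h.2 * k' l) * m l) : ℤ) :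
              ZMod A) * u - (h.1 : ZMod A) * c - (h.2 : ZMod A) * c') := by
        intro y
        have e2 := w6_phase k k' m y h
        have e3 : ((sqs (fun l => m l - (y + h).1 * k l - (y + h).2 * k' l) : ℤ) : ZMod A) =
            ((sqs (fun l => m l - y.1 * k l - y.2 * k' l) : ℤ) : ZMod A) +
              ((y.1 * (w6_G k k' h).1 + y.2 * (w6_G k k' h).2 +
                ∑ l, ((h.1 * k l + h.2 * k' l) ^ 2 - 2 * (h.1 * k l + h.2 * k' l) * m l) : ℤ) :
                ZMod A) := by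
          rw [← Int.cast_add, ← e2]
          congr 1
          ring
        simp only [hg]
        rw [e3, Int.cast_add, Int.cast_add, Int.cast_mul, Int.cast_mul, Prod.fst_add,
          Prod.snd_add, Int.cast_add, Int.cast_add]
        ring
      simp only [e1]
      exact w6_pair A L J hL hJL h _ _ _
    refine (norm_sum_le _ _).trans ((Finset.sum_le_sum fun h _ => h2 h).trans ?_)
    have h3 : ∑ h ∈ Hs ×ˢ Hs, mn A L (((w6_G k k' h).1 : ZMod A) * u) *
        mn A L (((w6_G k k' h).2 : ZMod A) * u) =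
        ∑ v ∈ (Hs ×ˢ Hs).image (w6_G k k'), mn A L (((v.1 : ℤ) : ZMod A) * u) *
          mn A L (((v.2 : ℤ) : ZMod A) * u) := by
      rw [Finset.sum_image]
      intro x _ y _ hxy
      exact w6_G_inj k k' hk x y hxy
    rw [h3]
    have h4 : U A V L u ^ 2 = ∑ v ∈ (Icc (-(V : ℤ)) V) ×ˢ (Icc (-(V : ℤ)) V),
        mn A L (((v.1 : ℤ) : ZMod A) * u) * mn A L (((v.2 : ℤ) : ZMod A) * u) := by
      rw [Finset.sum_product]
      unfold U
      rw [sq, Finset.sum_mul_sum]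
    rw [h4]
    apply Finset.sum_le_sum_of_subset_of_nonneg
    · intro v hv
      rw [mem_image] at hv
      obtain ⟨h, hh, rfl⟩ := hv
      rw [mem_product] at hh
      have b1 : |h.1| ≤ J := abs_le.2 (mem_Icc.1 hh.1)
      have b2 : |h.2| ≤ J := abs_le.2 (mem_Icc.1 hh.2)
      have hkk := w6_dot_le k k (fun l => (hH l).1) (fun l => (hH l).1)
      have hkx := w6_dot_le k k' (fun l => (hH l).1) (fun l => (hH l).2)
      have hxx := w6_dot_le k' k' (fun l => (hH l).2) (fun l => (hH l).2)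
      have hV' : 4 * (r : ℤ) * (H : ℤ) ^ 2 * J ≤ V := by exact_mod_cast hV
      have key : ∀ a b : ℤ, |a| ≤ (r : ℤ) * (H : ℤ) ^ 2 → |b| ≤ (r : ℤ) * (H : ℤ) ^ 2 →
          |2 * (h.1 * a + h.2 * b)| ≤ V := by
        intro a b ha hb
        have t1 : |h.1 * a| ≤ J * (r * H ^ 2) := by
          rw [abs_mul]
          exact mul_le_mul b1 ha (abs_nonneg _) (by positivity)
        have t2 : |h.2 * b| ≤ J * (r * H ^ 2) := by
          rw [abs_mul]
          exact mul_le_mul b2 hb (abs_nonneg _) (by positivity)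
        have t3 : |2 * (h.1 * a + h.2 * b)| = 2 * |h.1 * a + h.2 * b| := by
          rw [abs_mul, abs_of_pos (by norm_num : (0 : ℤ) < 2)]
        have t4 := abs_add_le (h.1 * a) (h.2 * b)
        rw [t3]
        nlinarith
      rw [mem_product]
      exact ⟨mem_Icc.2 (abs_le.1 (key _ _ hkk hkx)), mem_Icc.2 (abs_le.1 (key _ _ hkx hxx))⟩
    · intro v _ _
      exact mul_nonneg (w6_mn_nonneg A L hL0 _) (w6_mn_nonneg A L hL0 _)
  · intro x hx y hy
    rw [hR, mem_product, mem_Ico, mem_Ico] at hx hy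
    rw [mem_product, hHs, mem_Icc, mem_Icc, Prod.fst_sub, Prod.snd_sub]
    omega

end Stx
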